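import Pool.Agent.TH207.Desc
import Pool.Agent.U901.TZ.Comp

/-!
# The trapezoid conjecture and polynomials with few terms

Let `F, G` be a pair of polynomials as in the trapezoid conjecture (conditions 1, 4 and 5). Let `L` and
`H` be any polynomial maps of the plane with nonzero constant Jacobian determinants (for instance the
identity, automorphisms, or words in the map `(F, G)` itself and other such maps). If one of the two
components of the composite map `L ∘ (F, G) ∘ H` has few terms, then `[F, G] = 0`: it suffices that the
component has at most seven monomials besides the constant one, or that for some nonnegative integer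
weights `u`, `v` of the variables, not both zero, the weights of its monomials take at most four
values besides `0` and `min u v`. With the weights `1, 0` this applies if at most four positive
exponents of `x` occur, whatever the exponents of `y`, in particular if the degree in `x` is at
most four; with the weights `1, 1` it applies if the component has at most four homogeneous parts of
degree at least two.

The bounds for the components of plane Keller maps which are not automorphisms are in the starting
library (`Pool.Agent.TH207.eight`, `Pool.Agent.TH207.count'`, not handed in before); the composites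
with the maps `L` and `H` and the application to the trapezoids are added here.
-/

set_option autoImplicit false

open MvPolynomial

namespace Pool.Agent.Results.MP_2d59ee_ag.FewTerms

open Pool.Agent.U901.TZ

theorem bad_not_few {f g : P2} (hbad : Pool.Agent.W443.J6.Bad f g) : ¬ FewTerms f := by
  rintro (h | ⟨u, v, huv, h⟩)
  · have := Pool.Agent.TH207.eight hbad
    omega
  · have h1 := Pool.Agent.TH207.count' hbad (w0 := u) (w1 := v) (by omega)
    have e : Pool.Agent.TH207.Wts u v f = weights u v f := rfl
    rw [e] at h1
    omega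

/-- Let `a, b ≥ 2` be coprime, let `a` divide `m, n > 0` and let `F, G` be complex polynomials whose
Newton polygons are the trapezoids `T_{m,n}` and `T_{bm/a,bn/a}` and whose bracket is constant. Let
`L` and `H` be polynomial maps of the plane whose Jacobian determinants are nonzero constants. If one
component of the map `L ∘ (F, G) ∘ H` has few terms (at most seven monomials besides the constant
one; or at most four weights besides `0` and `min u v`, for some nonnegative integer weights `u`, `v`,
not both zero), then `[F, G] = 0`. -/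
theorem result (a b m n : ℕ) (hm : 0 < m) (hn : 0 < n) (ham : a ∣ m) (han : a ∣ n)
    (hab : Nat.gcd a b = 1) (ha : 2 ≤ a) (hb : 2 ≤ b)
    (F G : MvPolynomial (Fin 2) ℂ)
    (h1 : convexHull ℝ (insert ((0:ℝ), (0:ℝ))
        ((fun d : Fin 2 →₀ ℕ => ((d 0 : ℝ), (d 1 : ℝ))) '' (↑F.support : Set (Fin 2 →₀ ℕ))))
        = {p : ℝ × ℝ | 0 ≤ p.2 ∧ p.2 ≤ (n : ℝ) ∧ 0 ≤ p.1 ∧ p.1 ≤ (m : ℝ) + (n : ℝ) - p.2})
    (h4 : convexHull ℝ (insert ((0:ℝ), (0:ℝ))
        ((fun d : Fin 2 →₀ ℕ => ((d 0 : ℝ), (d 1 : ℝ))) '' (↑G.support : Set (Fin 2 →₀ ℕ))))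
        = {p : ℝ × ℝ | 0 ≤ p.2 ∧ p.2 ≤ ((b * n / a : ℕ) : ℝ) ∧ 0 ≤ p.1 ∧
            p.1 ≤ ((b * m / a : ℕ) : ℝ) + ((b * n / a : ℕ) : ℝ) - p.2})
    (h5 : ∃ c : ℂ, pderiv 0 F * pderiv 1 G - pderiv 1 F * pderiv 0 G = C c)
    (L H : Fin 2 → P2) (hL : Keller L) (hH : Keller H) (i : Fin 2)
    (hfew : FewTerms (comp L (comp ![F, G] H) i)) :
    pderiv 0 F * pderiv 1 G - pderiv 1 F * pderiv 0 G = 0 := by
  obtain ⟨c, hc⟩ := h5
  by_cases hc0 : c = 0
  · rw [hc, hc0, map_zero]
  exfalso
  have hng := Pool.Agent.R470.Keller.tz_not_good a b m n hm hn ham han hab ha hb F G h1 h4 hc0 hc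
  have hT : Keller ![F, G] := ⟨c, hc0, by simpa using hc⟩
  have hW : Keller (comp L (comp ![F, G] H)) := hL.comp (hT.comp hH)
  have hgood : Pool.Agent.H938R2.JC.Good (comp L (comp ![F, G] H) 0)
      (comp L (comp ![F, G] H) 1) := by
    by_contra hnot
    obtain ⟨d, hd, hJ⟩ := hW
    have hb0 : Pool.Agent.W443.J6.Bad (comp L (comp ![F, G] H) 0) (comp L (comp ![F, G] H) 1) :=
      ⟨⟨d, hd, by unfold Pool.Agent.H938R2.JC.J; exact hJ⟩, hnot⟩
    have hb1 : Pool.Agent.W443.J6.Bad (comp L (comp ![F, G] H) 1) (comp L (comp ![F, G] H) 0) := by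
      refine ⟨⟨-d, neg_ne_zero.2 hd, ?_⟩, fun h => hnot h.symm⟩
      unfold Pool.Agent.H938R2.JC.J
      rw [C_neg, ← hJ]
      ring
    fin_cases i
    · exact bad_not_few hb0 hfew
    · exact bad_not_few hb1 hfew
  have hA : Aut (comp L (comp ![F, G] H)) := aut_of_good hgood
  exact hng hA.right.left.good

end Pool.Agent.Results.MP_2d59ee_ag.FewTerms
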