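import Pool.Agent.U901.TZ.Comp
import Pool.Agent.H922R2.K24

/-!
# The trapezoid conjecture and symmetries of infinite order

Let `F, G` be a pair of polynomials as in the trapezoid conjecture (conditions 1, 4 and 5). Let `L` and
`H` be any polynomial maps of the plane with nonzero constant Jacobian determinants (for instance the
identity, automorphisms, or words in the map `(F, G)` itself and other such maps), and let
`K = L ∘ (F, G) ∘ H`. If some polynomial automorphism `φ` of the plane of infinite order maps the field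
`ℂ(K₀, K₁)` of the rational functions of the two components of `K` into itself, then `[F, G] = 0`. For
instance `[F, G] = 0` if `K ∘ φ = ψ ∘ K` for some automorphism `φ` of infinite order and some
polynomial or rational map `ψ`; the case `L = H = id`, `ψ = φ` are the pairs whose map commutes with an
automorphism of infinite order.

The theorem on plane Keller maps `K` with `K ∘ φ = ψ ∘ K` for a polynomial map `ψ` from which this is
deduced is in the starting library (`Pool.Agent.H922R2.K24`, not handed in before). Here rational maps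
`ψ` are admitted and the maps `L` and `H` are added; the result is applied to the trapezoids.
-/

set_option autoImplicit false

open MvPolynomial

namespace Pool.Agent.Results.MP_2d59ee_ag.InfiniteOrderSymmetry

/-- Polynomials in two variables with complex coefficients. -/
abbrev P2 : Type := MvPolynomial (Fin 2) ℂ

/-- The polynomial map `p ∘ q` of the plane (first `q`, then `p`). -/
noncomputable def comp (p q : Fin 2 → P2) : Fin 2 → P2 := fun i => aeval q (p i)

/-- The Jacobian determinant of the polynomial map `p` is a nonzero constant. -/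
def Keller (p : Fin 2 → P2) : Prop :=
  ∃ c : ℂ, c ≠ 0 ∧ pderiv 0 (p 0) * pderiv 1 (p 1) - pderiv 1 (p 0) * pderiv 0 (p 1) = C c

/-- The automorphism `φ` of the polynomial ring maps the field of the rational functions of the
components of `K` into itself: `φ (K i)` is a quotient of two polynomials in `K 0`, `K 1`. -/
def PreservesField (φ : P2 ≃ₐ[ℂ] P2) (K : Fin 2 → P2) : Prop :=
  ∀ i, ∃ p q : P2, aeval K q ≠ 0 ∧ aeval K q * φ (K i) = aeval K p

theorem ker_eq (p : Fin 2 → P2) : Keller p ↔ Pool.Agent.U901.TZ.Keller p := Iff.rfl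

theorem comp_eq (p q : Fin 2 → P2) : comp p q = Pool.Agent.U901.TZ.comp p q := rfl

/-- an infinite-order symmetry of the field makes the map an automorphism -/
theorem aut_of_symmetry (K : Fin 2 → P2) (hK : Keller K) (φ : P2 ≃ₐ[ℂ] P2)
    (hinf : ∀ n : ℕ, 0 < n → φ ^ n ≠ 1) (h : PreservesField φ K) : Pool.Agent.U901.TZ.Aut K := by
  obtain ⟨c, hc, hJ⟩ := hK
  have hu : IsUnit (Matrix.det (Pool.Agent.H922R2.jac K)) := Pool.Agent.R470.Keller.det_unit K hc hJ
  have hS : ∀ i, φ (K i) ∈ Pool.Agent.H922R2.SS K := by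
    intro i
    obtain ⟨p, q, hq, hpq⟩ := h i
    have hq0 : q ≠ 0 := by
      rintro rfl
      exact hq (map_zero _)
    exact Pool.Agent.H922R2.mem_range_of_mul K hu p q (φ (K i)) hq0 hpq
  have htop := Pool.Agent.H922R2.main_any hu φ hinf hS
  have h1 : ∀ i, ∃ g : P2, aeval K g = X i := by
    intro i
    have : (X i : P2) ∈ Pool.Agent.H922R2.SS K := by rw [htop]; trivial
    exact this
  choose g hg using h1
  exact ⟨g, hg⟩

/-- Let `a, b ≥ 2` be coprime, let `a` divide `m, n > 0` and let `F, G` be complex polynomials whose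
Newton polygons are the trapezoids `T_{m,n}` and `T_{bm/a,bn/a}` and whose bracket is constant. Let
`L` and `H` be polynomial maps of the plane whose Jacobian determinants are nonzero constants. If a
polynomial automorphism `φ` of the plane of infinite order maps the field of the rational functions of
the two components of the map `L ∘ (F, G) ∘ H` into itself, then `[F, G] = 0`. -/
theorem result (a b m n : ℕ) (hm : 0 < m) (hn : 0 < n) (ham : a ∣ m) (han : a ∣ n)
    (hab : Nat.gcd a b = 1) (ha : 2 ≤ a) (hb : 2 ≤ b)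
    (F G : MvPolynomial (Fin 2) ℂ)
    (h1 : convexHull ℝ (insert ((0:ℝ), (0:ℝ))
        ((fun d : Fin 2 →₀ ℕ => ((d 0 : ℝ), (d 1 : ℝ))) '' (↑F.support : Set (Fin 2 →₀ ℕ))))
        = {p : ℝ × ℝ | 0 ≤ p.2 ∧ p.2 ≤ (n : ℝ) ∧ 0 ≤ p.1 ∧ p.1 ≤ (m : ℝ) + (n : ℝ) - p.2})
    (h4 : convexHull ℝ (insert ((0:ℝ), (0:ℝ))
        ((fun d : Fin 2 →₀ ℕ => ((d 0 : ℝ), (d 1 : ℝ))) '' (↑G.support : Set (Fin 2 →₀ ℕ))))
        = {p : ℝ × ℝ | 0 ≤ p.2 ∧ p.2 ≤ ((b * n / a : ℕ) : ℝ) ∧ 0 ≤ p.1 ∧
            p.1 ≤ ((b * m / a : ℕ) : ℝ) + ((b * n / a : ℕ) : ℝ) - p.2})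
    (h5 : ∃ c : ℂ, pderiv 0 F * pderiv 1 G - pderiv 1 F * pderiv 0 G = C c)
    (L H : Fin 2 → P2) (hL : Keller L) (hH : Keller H)
    (φ : P2 ≃ₐ[ℂ] P2) (hinf : ∀ n : ℕ, 0 < n → φ ^ n ≠ 1)
    (hφ : PreservesField φ (comp L (comp ![F, G] H))) :
    pderiv 0 F * pderiv 1 G - pderiv 1 F * pderiv 0 G = 0 := by
  obtain ⟨c, hc⟩ := h5
  by_cases hc0 : c = 0
  · rw [hc, hc0, map_zero]
  exfalso
  have hng := Pool.Agent.R470.Keller.tz_not_good a b m n hm hn ham han hab ha hb F G h1 h4 hc0 hc
  have hT : Pool.Agent.U901.TZ.Keller ![F, G] := ⟨c, hc0, by simpa using hc⟩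
  have hL' : Pool.Agent.U901.TZ.Keller L := hL
  have hH' : Pool.Agent.U901.TZ.Keller H := hH
  have hW : Keller (comp L (comp ![F, G] H)) := hL'.comp (hT.comp hH')
  have hA : Pool.Agent.U901.TZ.Aut (Pool.Agent.U901.TZ.comp L (Pool.Agent.U901.TZ.comp ![F, G] H)) :=
    aut_of_symmetry _ hW φ hinf hφ
  exact hng hA.right.left.good

end Pool.Agent.Results.MP_2d59ee_ag.InfiniteOrderSymmetry
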