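import Pool.Agent.R470.Keller.Tz
import Pool.Agent.H938R2.JC.TwoPieces

/-!
# The trapezoid conjecture and polynomials with two quasi-homogeneous pieces

Let `F, G` be a pair of polynomials as in the trapezoid conjecture (conditions 1, 4 and 5). Let `L` and
`H` be any polynomial maps of the plane with nonzero constant Jacobian determinants (for instance the
identity, automorphisms, or words in the map `(F, G)` itself and other such maps). If one of the two
components of the composite map `L ∘ (F, G) ∘ H` is the sum of a constant and of two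
quasi-homogeneous polynomials, for some integer weights of the variables which are not both zero
(negative weights and the weight zero are allowed, and the two degrees are arbitrary integers), then
`[F, G] = 0`. So, for instance, neither `F` nor `G` nor any polynomial `F + r(G)` or `G + r(F)`, in
any coordinates of the plane, has its support, without the origin, on two parallel lines if
`[F, G] ≠ 0`.

The theorem on plane Keller maps one of whose components has two pieces is in the starting library
(`Pool.Agent.H938R2.JC.two_pieces`, not handed in before); the composites with maps `L` and `H` are new.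
-/

set_option autoImplicit false

open MvPolynomial

namespace Pool.Agent.Results.MP_2d59ee_ag.TwoPieces

/-- Polynomials in two variables with complex coefficients. -/
abbrev P2 : Type := MvPolynomial (Fin 2) ℂ

/-- The polynomial map `p ∘ q` of the plane (first `q`, then `p`). -/
noncomputable def comp (p q : Fin 2 → P2) : Fin 2 → P2 := fun i => aeval q (p i)

/-- The Jacobian determinant of the polynomial map `p` is a nonzero constant. -/
def Keller (p : Fin 2 → P2) : Prop :=
  ∃ c : ℂ, c ≠ 0 ∧ pderiv 0 (p 0) * pderiv 1 (p 1) - pderiv 1 (p 0) * pderiv 0 (p 1) = C c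

/-- The polynomial `f` is the sum of a constant and of two quasi-homogeneous polynomials, of degrees
`a` and `b`, for the integer weights `w 0`, `w 1` of the variables, which are not both zero. -/
def TwoPiece (f : P2) : Prop :=
  ∃ (w : Fin 2 → ℤ) (a b : ℤ), w ≠ 0 ∧
    ∀ d : Fin 2 →₀ ℕ, coeff d f ≠ 0 → d ≠ 0 → w 0 * d 0 + w 1 * d 1 = a ∨ w 0 * d 0 + w 1 * d 1 = b

theorem aeval_comp (p q : Fin 2 → P2) (f : P2) : aeval (comp p q) f = aeval q (aeval p f) := by
  have h1 : (aeval (comp p q) : P2 →ₐ[ℂ] P2) = (aeval q : P2 →ₐ[ℂ] P2).comp (aeval p) := by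
    apply MvPolynomial.algHom_ext
    intro j
    rw [AlgHom.comp_apply, aeval_X, aeval_X]
    rfl
  exact congrArg (fun g => g f) h1

theorem deriv_aeval (g : Fin 2 → P2) (f : P2) (j : Fin 2) :
    pderiv j (aeval g f) = aeval g (pderiv 0 f) * pderiv j (g 0) +
      aeval g (pderiv 1 f) * pderiv j (g 1) := by
  induction f using MvPolynomial.induction_on with
  | C a => simp [MvPolynomial.algebraMap_eq]
  | add p q hp hq =>
    rw [map_add, map_add, hp, hq]
    simp only [map_add]
    ring
  | mul_X p i hp =>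
    rw [map_mul, aeval_X, Derivation.leibniz, hp, smul_eq_mul, smul_eq_mul]
    simp only [Derivation.leibniz, smul_eq_mul, map_add, map_mul, aeval_X]
    fin_cases i
    · simp
      ring
    · simp
      ring

/-- Composites of polynomial maps with constant nonzero Jacobian determinants. -/
theorem Keller.comp {p q : Fin 2 → P2} (hp : Keller p) (hq : Keller q) :
    Keller (TwoPieces.comp p q) := by
  obtain ⟨c, hc, h⟩ := hp
  obtain ⟨d, hd, h'⟩ := hq
  refine ⟨c * d, mul_ne_zero hc hd, ?_⟩
  have e := congrArg (aeval q : P2 →ₐ[ℂ] P2) h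
  rw [map_sub, map_mul, map_mul, aeval_C] at e
  show pderiv 0 (aeval q (p 0)) * pderiv 1 (aeval q (p 1)) -
    pderiv 1 (aeval q (p 0)) * pderiv 0 (aeval q (p 1)) = C (c * d)
  rw [deriv_aeval, deriv_aeval, deriv_aeval, deriv_aeval, C_mul, ← h']
  rw [MvPolynomial.algebraMap_eq] at e
  rw [← e]
  ring

/-- a surjective endomorphism of the polynomial ring is injective -/
theorem inj_of_surj (φ : P2 →+* P2) (hs : Function.Surjective φ) : Function.Injective φ := by
  rw [injective_iff_map_eq_zero]
  intro x hx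
  have hsn : ∀ n : ℕ, Function.Surjective (φ ^ n) := by
    intro n
    rw [RingHom.coe_pow]
    exact hs.iterate n
  obtain ⟨n, hn⟩ := monotone_stabilizes_iff_noetherian.mpr (inferInstance : IsNoetherian P2 P2)
    ⟨fun n : ℕ => RingHom.ker (φ ^ n), fun a b hab y hy => by
      obtain ⟨c, rfl⟩ := Nat.exists_eq_add_of_le hab
      rw [RingHom.mem_ker] at hy ⊢
      rw [add_comm, pow_add, RingHom.mul_def, RingHom.comp_apply, hy, map_zero]⟩
  obtain ⟨y, rfl⟩ := hsn n x
  have h1 : y ∈ RingHom.ker (φ ^ (n + 1)) := by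
    rw [RingHom.mem_ker, add_comm, pow_add, pow_one, RingHom.mul_def, RingHom.comp_apply]
    exact hx
  have h2 : RingHom.ker (φ ^ n) = RingHom.ker (φ ^ (n + 1)) := hn (n + 1) (Nat.le_succ n)
  rw [← h2, RingHom.mem_ker] at h1
  exact h1

/-- a left invertible polynomial map of the plane is invertible from the right as well -/
theorem right_of_left {p q : Fin 2 → P2} (h : ∀ i, aeval q (p i) = X i) :
    ∀ i, aeval p (q i) = X i := by
  -- `aeval q ∘ aeval p = id`, so `aeval q` is surjective, hence injective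
  have h1 : ∀ f : P2, aeval q (aeval p f) = f := by
    intro f
    rw [← aeval_comp]
    have : TwoPieces.comp p q = X := funext h
    rw [this, aeval_X_left_apply]
  have hi := inj_of_surj (aeval q : P2 →ₐ[ℂ] P2).toRingHom fun f => ⟨aeval p f, h1 f⟩
  intro i
  apply hi
  show aeval q (aeval p (q i)) = aeval q (X i)
  rw [h1, aeval_X]

/-- The map is an automorphism of the plane. -/
def Aut (p : Fin 2 → P2) : Prop := ∃ q : Fin 2 → P2, ∀ i, aeval p (q i) = X i

theorem Aut.right {p q : Fin 2 → P2} (h : Aut (TwoPieces.comp p q)) : Aut q := by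
  obtain ⟨r, hr⟩ := h
  refine ⟨fun i => aeval p (r i), fun i => ?_⟩
  rw [← aeval_comp]
  exact hr i

theorem Aut.left {p q : Fin 2 → P2} (h : Aut (TwoPieces.comp p q)) : Aut p := by
  obtain ⟨s, hs⟩ := h.right
  obtain ⟨r, hr⟩ := h
  -- `s` is the inverse of `q`
  have hs' := right_of_left hs
  have hi := inj_of_surj (aeval q : P2 →ₐ[ℂ] P2).toRingHom (fun f => ⟨aeval s f, by
    show aeval q (aeval s f) = f
    rw [← aeval_comp]
    have : TwoPieces.comp s q = X := funext hs
    rw [this, aeval_X_left_apply]⟩)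
  have h2 : ∀ i, aeval p (r i) = s i := by
    intro i
    apply hi
    show aeval q (aeval p (r i)) = aeval q (s i)
    rw [hs, ← aeval_comp, hr]
  refine ⟨fun i => aeval r (q i), fun i => ?_⟩
  rw [← aeval_comp]
  have : TwoPieces.comp r p = s := funext h2
  rw [this]
  exact hs' i

theorem Aut.good {p : Fin 2 → P2} (h : Aut p) : Pool.Agent.H938R2.JC.Good (p 0) (p 1) := by
  refine Pool.Agent.R470.Keller.good_of_inv ?_
  have : (![p 0, p 1] : Fin 2 → P2) = p := by
    funext i
    fin_cases i <;> rfl
  rw [this]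
  exact h

theorem aut_of_good {p : Fin 2 → P2} (h : Pool.Agent.H938R2.JC.Good (p 0) (p 1)) : Aut p := by
  unfold Pool.Agent.H938R2.JC.Good at h
  have hr : ({p 0, p 1} : Set P2) = Set.range p := by
    ext x
    simp only [Set.mem_range, Fin.exists_fin_two, Set.mem_insert_iff, Set.mem_singleton_iff]
    rw [eq_comm (a := p 0), eq_comm (a := p 1)]
  rw [hr, Algebra.adjoin_range_eq_range_aeval] at h
  have h1 : ∀ i, ∃ g : P2, aeval p g = X i := by
    intro i
    have : (X i : P2) ∈ (aeval p : P2 →ₐ[ℂ] P2).range := by rw [h]; trivial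
    exact this
  choose g hg using h1
  exact ⟨g, hg⟩

/-- Let `a, b ≥ 2` be coprime, let `a` divide `m, n > 0` and let `F, G` be complex polynomials whose
Newton polygons are the trapezoids `T_{m,n}` and `T_{bm/a,bn/a}` and whose bracket is constant. Let
`L` and `H` be polynomial maps of the plane whose Jacobian determinants are nonzero constants. If one
component of the map `L ∘ (F, G) ∘ H` is the sum of a constant and of two quasi-homogeneous
polynomials, for the same integer weights, not both zero, then `[F, G] = 0`. -/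
theorem result (a b m n : ℕ) (hm : 0 < m) (hn : 0 < n) (ham : a ∣ m) (han : a ∣ n)
    (hab : Nat.gcd a b = 1) (ha : 2 ≤ a) (hb : 2 ≤ b)
    (F G : MvPolynomial (Fin 2) ℂ)
    (h1 : convexHull ℝ (insert ((0:ℝ), (0:ℝ))
        ((fun d : Fin 2 →₀ ℕ => ((d 0 : ℝ), (d 1 : ℝ))) '' (↑F.support : Set (Fin 2 →₀ ℕ))))
        = {p : ℝ × ℝ | 0 ≤ p.2 ∧ p.2 ≤ (n : ℝ) ∧ 0 ≤ p.1 ∧ p.1 ≤ (m : ℝ) + (n : ℝ) - p.2})
    (h4 : convexHull ℝ (insert ((0:ℝ), (0:ℝ))
        ((fun d : Fin 2 →₀ ℕ => ((d 0 : ℝ), (d 1 : ℝ))) '' (↑G.support : Set (Fin 2 →₀ ℕ))))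
        = {p : ℝ × ℝ | 0 ≤ p.2 ∧ p.2 ≤ ((b * n / a : ℕ) : ℝ) ∧ 0 ≤ p.1 ∧
            p.1 ≤ ((b * m / a : ℕ) : ℝ) + ((b * n / a : ℕ) : ℝ) - p.2})
    (h5 : ∃ c : ℂ, pderiv 0 F * pderiv 1 G - pderiv 1 F * pderiv 0 G = C c)
    (L H : Fin 2 → P2) (hL : Keller L) (hH : Keller H) (i : Fin 2)
    (htwo : TwoPiece (comp L (comp ![F, G] H) i)) :
    pderiv 0 F * pderiv 1 G - pderiv 1 F * pderiv 0 G = 0 := by
  obtain ⟨c, hc⟩ := h5
  by_cases hc0 : c = 0
  · rw [hc, hc0, map_zero]
  exfalso
  have hng := Pool.Agent.R470.Keller.tz_not_good a b m n hm hn ham han hab ha hb F G h1 h4 hc0 hc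
  have hT : Keller ![F, G] := ⟨c, hc0, by simpa using hc⟩
  have hW : Keller (comp L (comp ![F, G] H)) := hL.comp (hT.comp hH)
  have hgood : Pool.Agent.H938R2.JC.Good (comp L (comp ![F, G] H) 0)
      (comp L (comp ![F, G] H) 1) := by
    obtain ⟨d, hd, hJ⟩ := hW
    obtain ⟨w, a', b', hw, hf⟩ := htwo
    have hw' : w 0 ≠ 0 ∨ w 1 ≠ 0 := by
      by_contra hcon
      push Not at hcon
      apply hw
      funext j
      fin_cases j
      · exact hcon.1
      · exact hcon.2
    fin_cases i
    · exact Pool.Agent.H938R2.JC.two_pieces (c := d) (by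
        unfold Pool.Agent.H938R2.JC.J
        exact hJ) hd hw' a' b' hf
    · refine (Pool.Agent.H938R2.JC.two_pieces (f := comp L (comp ![F, G] H) 1)
        (g := comp L (comp ![F, G] H) 0) (c := -d) ?_ (neg_ne_zero.2 hd) hw' a' b' hf).symm
      unfold Pool.Agent.H938R2.JC.J
      rw [C_neg, ← hJ]
      ring
  have hA : Aut (comp L (comp ![F, G] H)) := aut_of_good hgood
  exact hng hA.right.left.good

end Pool.Agent.Results.MP_2d59ee_ag.TwoPieces
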