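import Pool.Agent.U901.TZ.Comp
import Pool.Agent.U474.WC.Conv

/-!
# The trapezoid conjecture and families of curves which are nondegenerate at infinity

Let `F, G` be a pair of polynomials as in the trapezoid conjecture (conditions 1, 4 and 5). Let `L` and
`H` be any polynomial maps of the plane with nonzero constant Jacobian determinants (for instance the
identity, automorphisms, or words in the map `(F, G)` itself and other such maps), and let
`K = L ∘ (F, G) ∘ H`. Let `z₁, …, z_r` be rational functions of `x, y` which satisfy `r` equations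
`Φ_i(K₀; K₁, z₁, …, z_r) = 0`, where the `Φ_i(U; V, Z)` are polynomials with the following properties:
their leading forms, for some positive weights of `V` and the `Z_j`, are products of a polynomial in `U`
and a form with constant coefficients; these forms define a curve whose points at infinity are simple
and are not on `V = 0`, and over which `V` is unramified; and for all but finitely many `u` the affine
curve `Φ_i(u; V, Z) = 0` is smooth. Thus the surface `Φ_i(U; V, Z) = 0` is a finite covering of the
plane of `U` and `V` over the complement of finitely many lines `U = u`.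

If the components of `H` (for `H = id`: the variables `x` and `y`) are rational functions of `K₀, K₁`
and the `z_j`, then `[F, G] = 0`. There is no condition on the number `r`, on the degrees, on the genus
of the curves or on the monodromy of the covering. For `r = 1` and the weights `1, 1` the condition
is that `Φ(u; V, Z) = 0` is for almost all `u` a smooth affine plane curve of degree `n` with the same
`n` different points at infinity, none of them on `V = 0`.

The theorem on plane Keller maps from which this is deduced is in the starting library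
(`Pool.Agent.Y235.JC.P6`, not handed in before), with a condition on ideals instead of conditions on
zeros; the conditions on zeros, the maps `L` and `H` (where the field generated by the `z_j` need only
contain the components of `H`) and the application to the trapezoids are added here.
-/

set_option autoImplicit false

open MvPolynomial

namespace Pool.Agent.Results.MP_2d59ee_ag.WeightedCompleteIntersections

open Pool.Agent.U474.WC

/-- Polynomials in two variables with complex coefficients. -/
abbrev P2 : Type := MvPolynomial (Fin 2) ℂ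

/-- Rational functions in two variables with complex coefficients. -/
abbrev R2 : Type := FractionRing P2

/-- The polynomial map `p ∘ q` of the plane (first `q`, then `p`). -/
noncomputable def comp (p q : Fin 2 → P2) : Fin 2 → P2 := fun i => aeval q (p i)

/-- The Jacobian determinant of the polynomial map `p` is a nonzero constant. -/
def Keller (p : Fin 2 → P2) : Prop :=
  ∃ c : ℂ, c ≠ 0 ∧ pderiv 0 (p 0) * pderiv 1 (p 1) - pderiv 1 (p 0) * pderiv 0 (p 1) = C c

/-- The equations of `D` hold for `U = K 0`, `V = K 1`, `Z_j = z j`. -/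
def Solves {r : ℕ} (D : CurveFamily r) (K : Fin 2 → P2) (z : Fin r → R2) : Prop :=
  ∀ i, eval₂ ((algebraMap P2 R2).comp (Polynomial.eval₂RingHom C (K 0)))
    (fun o => o.elim (algebraMap P2 R2 (K 1)) z) (D.Φ i) = 0

/-- The polynomial `f` is a rational function of `K 0`, `K 1` and the `z j`. -/
def IsRationalIn {r : ℕ} (f : P2) (K : Fin 2 → P2) (z : Fin r → R2) : Prop :=
  algebraMap P2 R2 f ∈
    IntermediateField.adjoin ℂ (Set.range (fun j => algebraMap P2 R2 (K j)) ∪ Set.range z)

/-- Let `a, b ≥ 2` be coprime, let `a` divide `m, n > 0` and let `F, G` be complex polynomials whose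
Newton polygons are the trapezoids `T_{m,n}` and `T_{bm/a,bn/a}` and whose bracket is constant. Let
`L` and `H` be polynomial maps of the plane whose Jacobian determinants are nonzero constants, and
`K = L ∘ (F, G) ∘ H`. Let the rational functions `z j` satisfy the equations of a family `D` with
`U = K 0`, `V = K 1`. If the two components of `H` are rational functions of `K 0`, `K 1` and the
`z j`, then `[F, G] = 0`. -/
theorem result (a b m n : ℕ) (hm : 0 < m) (hn : 0 < n) (ham : a ∣ m) (han : a ∣ n)
    (hab : Nat.gcd a b = 1) (ha : 2 ≤ a) (hb : 2 ≤ b)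
    (F G : MvPolynomial (Fin 2) ℂ)
    (h1 : convexHull ℝ (insert ((0:ℝ), (0:ℝ))
        ((fun d : Fin 2 →₀ ℕ => ((d 0 : ℝ), (d 1 : ℝ))) '' (↑F.support : Set (Fin 2 →₀ ℕ))))
        = {p : ℝ × ℝ | 0 ≤ p.2 ∧ p.2 ≤ (n : ℝ) ∧ 0 ≤ p.1 ∧ p.1 ≤ (m : ℝ) + (n : ℝ) - p.2})
    (h4 : convexHull ℝ (insert ((0:ℝ), (0:ℝ))
        ((fun d : Fin 2 →₀ ℕ => ((d 0 : ℝ), (d 1 : ℝ))) '' (↑G.support : Set (Fin 2 →₀ ℕ))))
        = {p : ℝ × ℝ | 0 ≤ p.2 ∧ p.2 ≤ ((b * n / a : ℕ) : ℝ) ∧ 0 ≤ p.1 ∧
            p.1 ≤ ((b * m / a : ℕ) : ℝ) + ((b * n / a : ℕ) : ℝ) - p.2})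
    (h5 : ∃ c : ℂ, pderiv 0 F * pderiv 1 G - pderiv 1 F * pderiv 0 G = C c)
    (L H : Fin 2 → P2) (hL : Keller L) (hH : Keller H)
    {r : ℕ} (D : CurveFamily r) (z : Fin r → R2) (hz : Solves D (comp L (comp ![F, G] H)) z)
    (hgen : ∀ i, IsRationalIn (H i) (comp L (comp ![F, G] H)) z) :
    pderiv 0 F * pderiv 1 G - pderiv 1 F * pderiv 0 G = 0 := by
  obtain ⟨c, hc⟩ := h5
  by_cases hc0 : c = 0
  · rw [hc, hc0, map_zero]
  exfalso
  have hng := Pool.Agent.R470.Keller.tz_not_good a b m n hm hn ham han hab ha hb F G h1 h4 hc0 hc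
  have hT : Pool.Agent.U901.TZ.Keller ![F, G] := ⟨c, hc0, by simpa using hc⟩
  have hL' : Pool.Agent.U901.TZ.Keller L := hL
  have hH' : Pool.Agent.U901.TZ.Keller H := hH
  obtain ⟨c1, hc1, hJ1⟩ : Keller (comp L (comp ![F, G] H)) := hL'.comp (hT.comp hH')
  obtain ⟨c2, hc2, hJ2⟩ := hH
  have hu : IsUnit (Matrix.det (Pool.Agent.H922R2.jac (comp L (comp ![F, G] H)))) :=
    Pool.Agent.R470.Keller.det_unit _ hc1 hJ1
  have huH : IsUnit (Matrix.det (Pool.Agent.H922R2.jac H)) :=
    Pool.Agent.R470.Keller.det_unit _ hc2 hJ2
  have hfield := (Pool.Agent.Y235.JC.CI_field (comp L (comp ![F, G] H)) hu D.toCI z hz).1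
  have hle : IntermediateField.adjoin ℂ (Set.range (fun j =>
        algebraMap P2 R2 (comp L (comp ![F, G] H) j)) ∪ Set.range z) ≤
      IntermediateField.adjoin ℂ (Set.range fun j =>
        algebraMap P2 R2 (comp L (comp ![F, G] H) j)) := by
    rw [IntermediateField.adjoin_le_iff]
    rintro x (hx | ⟨j, rfl⟩)
    · exact IntermediateField.subset_adjoin _ _ hx
    · exact hfield j
  have hS : ∀ i, ∃ g : P2, aeval (comp L (comp ![F, G] H)) g = H i := fun i =>
    Pool.Agent.H922R2.mem_SS_of_mem_fF R2 _ hu (H i) (hle (hgen i))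
  choose g hg using hS
  have hW : comp L (comp ![F, G] H) = comp (comp L ![F, G]) H := by
    funext i
    show aeval (Pool.Agent.U901.TZ.comp ![F, G] H) (L i) = aeval H (aeval ![F, G] (L i))
    exact Pool.Agent.U901.TZ.aeval_comp _ _ _
  have hA : Pool.Agent.U901.TZ.Aut (Pool.Agent.U901.TZ.comp L ![F, G]) := by
    refine ⟨g, fun i => ?_⟩
    apply Pool.Agent.H922R2.aeval_injective H huH
    rw [aeval_X, ← hg i, hW]
    exact (Pool.Agent.U901.TZ.aeval_comp (comp L ![F, G]) H (g i)).symm
  exact hng hA.right.good

end Pool.Agent.Results.MP_2d59ee_ag.WeightedCompleteIntersections
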